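import Pool.Agent.H51.PM.Fin
import Pool.Agent.H96.UL.Blk
import Pool.Agent.H96.UL.Main

/-!
Almost every even number `h ≤ L`, at every scale `L` between a constant `L₀` and a power `X^δ` of `X`, has a multiple `j h`,
`j ∈ {1, 2, 3, 4}` (`j ≤ 3` if `3 ∣ h`), which is the difference of two primes `N`, `N + j h` for at least
`c min(1, L/log X)^K X/(log X)^2` of the `N ≤ X`, and of two CONSECUTIVE primes if `L ≤ lam log X`.
-/

namespace Pool.Agent.Results.MP_8923e7_nt.FourMultiples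

open Finset

open Classical in
/-- **Theorem.** `K` is absolute. -/
theorem result : ∃ K : ℕ, ∀ ε : ℝ, 0 < ε → ∃ (c lam δ : ℝ) (L₀ X₀ : ℕ), 0 < c ∧ 0 < lam ∧ 0 < δ ∧
    ∀ X L : ℕ, X₀ ≤ X → L₀ ≤ L → (L : ℝ) ≤ (X : ℝ) ^ δ →
    (((Icc 1 L).filter fun h => Even h ∧ ¬ ∃ j ∈ Icc 1 4, (3 ∣ h → j ≤ 3) ∧
      c * (min 1 ((L : ℝ) / Real.log X)) ^ K * (X / Real.log X ^ 2) ≤
        (((Icc 1 X).filter fun N => N.Prime ∧ (N + j * h).Prime ∧ ((L : ℝ) ≤ lam * Real.log X →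
          ∀ t : ℕ, N < t → t < N + j * h → ¬ t.Prime)).card : ℝ)).card : ℝ) ≤ ε * L := by
  obtain ⟨K, hK⟩ := Pool.Agent.H51.PM.fin4
    (Pool.Agent.H96.UL.blkU_of_medU Pool.Agent.H96.UL.med_uniform)
  refine ⟨K, fun ε hε => ?_⟩
  obtain ⟨c, lam, δ, L₀, X₀, hc, hl, hδ, h⟩ := hK ε hε
  refine ⟨c, lam, δ, L₀, X₀, hc, hl, hδ, fun X L hX hL hLδ => ?_⟩
  refine le_trans ?_ (h X L hX hL hLδ)
  rw [Nat.cast_le]
  apply card_le_card
  intro m hm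
  rw [mem_filter] at hm ⊢
  refine ⟨hm.1, hm.2.1, fun j hj hj3 => ?_⟩
  by_contra hcon
  push Not at hcon
  refine hm.2.2 ⟨j, hj, hj3, hcon.trans (le_of_eq ?_)⟩
  unfold Pool.Agent.H51.PM.cnt
  rfl

end Pool.Agent.Results.MP_8923e7_nt.FourMultiples
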